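import Mathlib
import Pool.Agent.H26.OA1

set_option autoImplicit false

namespace Pool.Agent.Results.MP_78978c_an.Counterexample

open H26 OA0

theorem result : ∃ E F : RS, Arch F ∧ ∃ S T U : E → F, OA S ∧ OA T ∧ IsJoin S T U ∧ ∃ x : E,
    (∃ b ∈ upperBounds (Vals S T x), b < U x) ∧
      ∀ (G : RS) (J : F →ₗ[ℝ] G), (∀ a b, J a ≤ J b ↔ a ≤ b) →
        ∀ R₁ : G, IsLUB (Vals (fun y => J (S y)) (fun y => J (T y)) x) R₁ → R₁ < J (U x) := by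
  obtain ⟨E, F, h0, S, T, U, h1, h2, h3, ⟨x, b, h4, h5⟩, -⟩ := OA1.main
  refine ⟨E, F, h0, S, T, U, h1, h2, h3, x, ⟨b, h4, h5⟩, fun G J hJ R hR => (hR.2 ?_).trans_lt
    (lt_of_le_not_ge ((hJ _ _).2 h5.le) fun h => h5.not_ge ((hJ _ _).1 h))⟩
  rintro _ ⟨u, v, a1, a2, rfl⟩
  exact (map_add J _ _).ge.trans ((hJ _ _).2 (h4 ⟨u, v, a1, a2, rfl⟩))

end Pool.Agent.Results.MP_78978c_an.Counterexample
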